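import Pool.Agent.H33.BDFP.Stmts

attribute [local instance] Pool.Agent.H33.BDFP.NV.instNACG Pool.Agent.H33.BDFP.NV.instModule
  Pool.Agent.H33.BDFP.NV.instNormedSpace Pool.Agent.H33.BDFP.NV.instFD
  Pool.Agent.H33.BDFP.NV.instComplete

/-!
Module CYC: slowly varying families of matrices moving the copies.
-/

open scoped ENNReal NNReal

noncomputable section

namespace Pool.Agent.H32.BDFP

open Pool.Agent.H33.BDFP

/-- the cycle `0 → 1 → ... → K → 0` as a function -/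
def cycf (K c : ℕ) : ℕ := if c < K then c + 1 else if c = K then 0 else c

/-- its inverse -/
def cycg (K c : ℕ) : ℕ := if c = 0 then K else if c ≤ K then c - 1 else c

lemma cycf_cases (K c : ℕ) : (c < K ∧ cycf K c = c + 1) ∨ (c = K ∧ cycf K c = 0) ∨
    (K < c ∧ cycf K c = c) := by
  unfold cycf; split_ifs <;> omega

lemma cycg_cases (K c : ℕ) : (c = 0 ∧ cycg K c = K) ∨ (1 ≤ c ∧ c ≤ K ∧ cycg K c + 1 = c) ∨
    (K < c ∧ 1 ≤ c ∧ cycg K c = c) := by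
  unfold cycg; split_ifs <;> omega

/-- the cycle `0 → 1 → ... → K → 0` -/
def cyc (K : ℕ) : Equiv.Perm ℕ where
  toFun := cycf K
  invFun := cycg K
  left_inv c := by
    have h1 := cycf_cases K c
    have h2 := cycg_cases K (cycf K c)
    omega
  right_inv c := by
    have h1 := cycg_cases K c
    have h2 := cycf_cases K (cycg K c)
    omega

lemma cyc_cases (K c : ℕ) : (c < K ∧ cyc K c = c + 1) ∨ (c = K ∧ cyc K c = 0) ∨
    (K < c ∧ cyc K c = c) := cycf_cases K c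

/-- first reflection -/
def s1f (a b c : ℕ) : ℕ :=
  if c = 0 then a + 1 else if c = a + 1 then 0 else
    if a + 2 ≤ c ∧ c ≤ b then a + b + 2 - c else c

/-- second reflection -/
def s2f (a b c : ℕ) : ℕ := if a < c ∧ c ≤ b then a + b + 1 - c else c

lemma s1f_cases (a b c : ℕ) : (c = 0 ∧ s1f a b c = a + 1) ∨ (c = a + 1 ∧ s1f a b c = 0) ∨
    (a + 2 ≤ c ∧ c ≤ b ∧ s1f a b c + c = a + b + 2) ∨
    ((c ≤ a ∨ b < c) ∧ c ≠ 0 ∧ c ≠ a + 1 ∧ s1f a b c = c) := by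
  unfold s1f; split_ifs <;> omega

lemma s2f_cases (a b c : ℕ) : (a < c ∧ c ≤ b ∧ s2f a b c + c = a + b + 1) ∨
    ((c ≤ a ∨ b < c) ∧ s2f a b c = c) := by
  unfold s2f; split_ifs <;> omega

lemma s1f_inv (a b : ℕ) : Function.Involutive (s1f a b) := by
  intro c
  have h1 := s1f_cases a b c
  have h2 := s1f_cases a b (s1f a b c)
  omega

lemma s2f_inv (a b : ℕ) : Function.Involutive (s2f a b) := by
  intro c
  have h1 := s2f_cases a b c
  have h2 := s2f_cases a b (s2f a b c)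
  omega

lemma s_cyc (a b : ℕ) (hab : a < b) (c : ℕ) : s1f a b (s2f a b (cyc a c)) = cyc b c := by
  have h1 := cyc_cases a c
  have h2 := cyc_cases b c
  have h3 := s2f_cases a b (cyc a c)
  have h4 := s1f_cases a b (s2f a b (cyc a c))
  omega

/-- the indicator of `y` -/
def ind (y : ℕ) : ℕ → ℂ := fun z => if z = y then 1 else 0

/-- the path of a reflection -/
def Tw (s : ℕ → ℕ) (w : ℂ) (f : ℕ → ℂ) : ℕ → ℂ :=
  fun y => (1 + w) / 2 * f y + (1 - w) / 2 * f (s y)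

lemma Tw_mul (s : ℕ → ℕ) (hs : Function.Involutive s) (w w' : ℂ) (h : w * w' = 1)
    (f : ℕ → ℂ) : Tw s w (Tw s w' f) = f := by
  funext y
  unfold Tw
  rw [hs y]
  linear_combination (f y - f (s y)) / 2 * h

lemma Tw_one (s : ℕ → ℕ) (f : ℕ → ℂ) : Tw s 1 f = f := by
  funext y
  unfold Tw
  ring

lemma Tw_neg_one (s : ℕ → ℕ) (f : ℕ → ℂ) : Tw s (-1) f = fun y => f (s y) := by
  funext y
  unfold Tw
  ring

lemma Tw_fix (s : ℕ → ℕ) (w : ℂ) (f : ℕ → ℂ) (y : ℕ) (h : s y = y) : Tw s w f y = f y := by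
  unfold Tw
  rw [h]
  ring

lemma Tw_ind_fix (s : ℕ → ℕ) (hs : Function.Involutive s) (w : ℂ) (y : ℕ) (h : s y = y) :
    Tw s w (ind y) = ind y := by
  funext z
  unfold Tw
  have : ind y (s z) = ind y z := by
    unfold ind
    have e : s z = y ↔ z = y := by
      constructor
      · intro h1
        rw [← hs z, h1, h]
      · intro h1
        rw [h1, h]
    simp only [e]
  rw [this]
  ring

/-- the matrices -/
def Gm (w : ℂ) (a b : ℕ) (c' c : ℕ) : ℂ := Tw (s1f a b) w (Tw (s2f a b) w (ind (cyc a c))) c'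

/-- the inverse matrices (`w` is the inverse of the parameter of `Gm`) -/
def Gn (w : ℂ) (a b : ℕ) (c' c : ℕ) : ℂ := Tw (s2f a b) w (Tw (s1f a b) w (ind c)) (cyc a c')

lemma ind_ne_zero {y z : ℕ} (h : ind y z ≠ 0) : z = y := by
  unfold ind at h
  by_contra h1
  simp [h1] at h

lemma Tw_ne_zero {s : ℕ → ℕ} {w : ℂ} {f : ℕ → ℂ} {y : ℕ} (h : Tw s w f y ≠ 0) :
    f y ≠ 0 ∨ f (s y) ≠ 0 := by
  by_contra h1
  push Not at h1
  apply h
  unfold Tw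
  rw [h1.1, h1.2]
  ring

lemma Gm_ne_zero {w : ℂ} {a b c' c : ℕ} (h : Gm w a b c' c ≠ 0) :
    c' = cyc a c ∨ s2f a b c' = cyc a c ∨ s1f a b c' = cyc a c ∨
      s2f a b (s1f a b c') = cyc a c := by
  rcases Tw_ne_zero h with h1 | h1
  · rcases Tw_ne_zero h1 with h2 | h2
    · exact Or.inl (ind_ne_zero h2)
    · exact Or.inr (Or.inl (ind_ne_zero h2))
  · rcases Tw_ne_zero h1 with h2 | h2
    · exact Or.inr (Or.inr (Or.inl (ind_ne_zero h2)))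
    · exact Or.inr (Or.inr (Or.inr (ind_ne_zero h2)))

lemma Gn_ne_zero {w : ℂ} {a b c' c : ℕ} (h : Gn w a b c' c ≠ 0) :
    cyc a c' = c ∨ s1f a b (cyc a c') = c ∨ s2f a b (cyc a c') = c ∨
      s1f a b (s2f a b (cyc a c')) = c := by
  rcases Tw_ne_zero h with h1 | h1
  · rcases Tw_ne_zero h1 with h2 | h2
    · exact Or.inl (ind_ne_zero h2)
    · exact Or.inr (Or.inl (ind_ne_zero h2))
  · rcases Tw_ne_zero h1 with h2 | h2
    · exact Or.inr (Or.inr (Or.inl (ind_ne_zero h2)))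
    · exact Or.inr (Or.inr (Or.inr (ind_ne_zero h2)))

lemma Gm_adm {w : ℂ} {a b c' c k : ℕ} (hab : a < b) (hk : k ≤ a) (h : Gm w a b c' c ≠ 0) :
    c' = c + 1 ∨ (c' = c ∧ 1 ≤ c) ∨ (k ≤ c ∧ (c' = 0 ∨ k ≤ c')) := by
  have h1 := Gm_ne_zero h
  have h2 := cyc_cases a c
  have h3 := s2f_cases a b c'
  have h4 := s1f_cases a b c'
  have h5 := s2f_cases a b (s1f a b c')
  omega

lemma Gn_adm {w : ℂ} {a b c' c k : ℕ} (hab : a < b) (hk : k ≤ a) (h : Gn w a b c' c ≠ 0) :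
    c = c' + 1 ∨ (c' = c ∧ 1 ≤ c) ∨ (k ≤ c' ∧ (c = 0 ∨ k ≤ c)) := by
  have h1 := Gn_ne_zero h
  have h2 := cyc_cases a c'
  have h3 := s2f_cases a b (cyc a c')
  have h4 := s1f_cases a b (cyc a c')
  have h5 := s1f_cases a b (s2f a b (cyc a c'))
  omega

/-- fixed columns -/
lemma Gm_col {w : ℂ} {a b c' c : ℕ} (hc : c < a ∨ b < c) (hab : a < b) :
    Gm w a b c' c = ind (cyc a c) c' := by
  unfold Gm
  have h0 := cyc_cases a c
  have h1 : s1f a b (cyc a c) = cyc a c := by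
    have := s1f_cases a b (cyc a c)
    omega
  have h2 : s2f a b (cyc a c) = cyc a c := by
    have := s2f_cases a b (cyc a c)
    omega
  rw [Tw_ind_fix _ (s2f_inv a b) _ _ h2, Tw_ind_fix _ (s1f_inv a b) _ _ h1]

lemma s1_fix {a b c : ℕ} (hc : (c ≠ 0 ∧ c ≤ a) ∨ b < c) (hab : a < b) : s1f a b c = c := by
  have := s1f_cases a b c
  omega

lemma s2_fix {a b c : ℕ} (hc : c ≤ a ∨ b < c) : s2f a b c = c := by
  have := s2f_cases a b c
  omega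

/-- fixed rows -/
lemma Gm_row {w : ℂ} {a b c' c : ℕ} (hc : (c' ≠ 0 ∧ c' ≤ a) ∨ b < c') (hab : a < b) :
    Gm w a b c' c = ind (cyc a c) c' := by
  unfold Gm
  rw [Tw_fix _ _ _ _ (s1_fix hc hab), Tw_fix _ _ _ _ (s2_fix (by omega))]

lemma Gn_row {w : ℂ} {a b c' c : ℕ} (hc : c' < a ∨ b < c') (hab : a < b) :
    Gn w a b c' c = ind c (cyc a c') := by
  unfold Gn
  have h0 := cyc_cases a c'
  have h1 : s1f a b (cyc a c') = cyc a c' := by
    have := s1f_cases a b (cyc a c')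
    omega
  have h2 : s2f a b (cyc a c') = cyc a c' := by
    have := s2f_cases a b (cyc a c')
    omega
  rw [Tw_fix _ _ _ _ h2, Tw_fix _ _ _ _ h1]

lemma Gn_col {w : ℂ} {a b c' c : ℕ} (hc : (c ≠ 0 ∧ c ≤ a) ∨ b < c) (hab : a < b) :
    Gn w a b c' c = ind c (cyc a c') := by
  unfold Gn
  rw [Tw_ind_fix _ (s1f_inv a b) _ _ (s1_fix hc hab),
    Tw_ind_fix _ (s2f_inv a b) _ _ (s2_fix (by omega))]

lemma ind_cyc_out {a b c' c : ℕ} (hab : a < b) (h : b < c' ∨ b < c) :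
    ind (cyc a c) c' = if c' = c then 1 else 0 := by
  have h0 := cyc_cases a c
  have : c' = cyc a c ↔ c' = c := by omega
  unfold ind
  simp only [this]

lemma ind_cyc_out' {a b c' c : ℕ} (hab : a < b) (h : b < c' ∨ b < c) :
    ind c (cyc a c') = if c' = c then 1 else 0 := by
  have h0 := cyc_cases a c'
  have : cyc a c' = c ↔ c' = c := by omega
  unfold ind
  simp only [this]

lemma Gm_out {w : ℂ} {a b c' c : ℕ} (hab : a < b) (h : b < c' ∨ b < c) :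
    Gm w a b c' c = if c' = c then 1 else 0 := by
  rcases h with h | h
  · rw [Gm_row (Or.inr h) hab, ind_cyc_out hab (Or.inl h)]
  · rw [Gm_col (Or.inr h) hab, ind_cyc_out hab (Or.inr h)]

lemma Gn_out {w : ℂ} {a b c' c : ℕ} (hab : a < b) (h : b < c' ∨ b < c) :
    Gn w a b c' c = if c' = c then 1 else 0 := by
  rcases h with h | h
  · rw [Gn_row (Or.inr h) hab, ind_cyc_out' hab (Or.inl h)]
  · rw [Gn_col (Or.inr h) hab, ind_cyc_out' hab (Or.inr h)]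

/-! ### the end of a stage -/

lemma Gm_end (a b : ℕ) (hab : a < b) (b' c' c : ℕ) : Gm (-1) a b c' c = Gm 1 b b' c' c := by
  unfold Gm
  rw [Tw_neg_one, Tw_neg_one, Tw_one, Tw_one]
  have : s2f a b (s1f a b c') = cyc a c ↔ c' = cyc b c := by
    rw [← s_cyc a b hab c]
    constructor
    · intro h
      rw [← h, s2f_inv a b, s1f_inv a b]
    · intro h
      rw [h, s1f_inv a b, s2f_inv a b]
  unfold ind
  simp only [this]

lemma Gn_end (a b : ℕ) (hab : a < b) (b' c' c : ℕ) : Gn (-1) a b c' c = Gn 1 b b' c' c := by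
  unfold Gn
  rw [Tw_neg_one, Tw_neg_one, Tw_one, Tw_one]
  change ind c (s1f a b (s2f a b (cyc a c'))) = _
  rw [s_cyc a b hab]

/-! ### inverse -/

lemma sum_ind_mul (n y : ℕ) (hy : y < n) (f : ℕ → ℂ) :
    ∑ d ∈ Finset.range n, ind d y * f d = f y := by
  unfold ind
  simp [Finset.sum_ite_eq, hy]

lemma sum_ind_mul' (n y : ℕ) (hy : y < n) (f : ℕ → ℂ) :
    ∑ d ∈ Finset.range n, f d * ind d y = f y := by
  unfold ind
  simp [Finset.sum_ite_eq, hy]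

lemma s1_lt {a b c : ℕ} (hab : a < b) (hc : c < b + 1) : s1f a b c < b + 1 := by
  have := s1f_cases a b c
  omega

lemma s2_lt {a b c : ℕ} (hc : c < b + 1) : s2f a b c < b + 1 := by
  have := s2f_cases a b c
  omega

lemma cyc_lt {a b c : ℕ} (hab : a < b) (hc : c < b + 1) : cyc a c < b + 1 := by
  have := cyc_cases a c
  omega

lemma sum_Gn (w : ℂ) (a b : ℕ) (hab : a < b) (c' : ℕ) (hc : c' < b + 1) (f : ℕ → ℂ) :
    ∑ d ∈ Finset.range (b + 1), Gn w a b c' d * f d =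
      Tw (s2f a b) w (Tw (s1f a b) w f) (cyc a c') := by
  have h0 := cyc_lt hab hc
  have e : ∀ d, Gn w a b c' d * f d =
      (1 + w) / 2 * ((1 + w) / 2 * (ind d (cyc a c') * f d) +
        (1 - w) / 2 * (ind d (s1f a b (cyc a c')) * f d)) +
      (1 - w) / 2 * ((1 + w) / 2 * (ind d (s2f a b (cyc a c')) * f d) +
        (1 - w) / 2 * (ind d (s1f a b (s2f a b (cyc a c'))) * f d)) := by
    intro d
    unfold Gn Tw
    ring
  rw [Finset.sum_congr rfl fun d _ => e d, Finset.sum_add_distrib, ← Finset.mul_sum,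
    ← Finset.mul_sum, Finset.sum_add_distrib, Finset.sum_add_distrib, ← Finset.mul_sum,
    ← Finset.mul_sum, ← Finset.mul_sum, ← Finset.mul_sum, sum_ind_mul _ _ h0,
    sum_ind_mul _ _ (s1_lt hab h0), sum_ind_mul _ _ (s2_lt h0),
    sum_ind_mul _ _ (s1_lt hab (s2_lt h0))]
  rfl

lemma inv1 (w w' : ℂ) (h : w * w' = 1) (a b : ℕ) (hab : a < b) (c' c : ℕ) (hc' : c' ≤ b) :
    ∑ d ∈ Finset.range (b + 1), Gn w' a b c' d * Gm w a b d c = if c' = c then 1 else 0 := by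
  rw [sum_Gn w' a b hab c' (by omega)]
  have e : (fun d => Gm w a b d c) = Tw (s1f a b) w (Tw (s2f a b) w (ind (cyc a c))) := rfl
  rw [e, Tw_mul _ (s1f_inv a b) _ _ (by rw [mul_comm]; exact h),
    Tw_mul _ (s2f_inv a b) _ _ (by rw [mul_comm]; exact h)]
  unfold ind
  simp only [(cyc a).injective.eq_iff]

lemma inv2 (w w' : ℂ) (h : w * w' = 1) (a b : ℕ) (hab : a < b) (c' c : ℕ) (hc' : c' ≤ b) :
    ∑ d ∈ Finset.range (b + 1), Gm w a b c' d * Gn w' a b d c = if c' = c then 1 else 0 := by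
  -- the sum over `d` is a sum over `y = cyc a d`
  have hF : ∀ F : ℕ → ℂ, ∑ d ∈ Finset.range (b + 1), F (cyc a d) =
      ∑ y ∈ Finset.range (b + 1), F y := by
    intro F
    refine Finset.sum_nbij' (fun d => cyc a d) (fun y => (cyc a).symm y) ?_ ?_ ?_ ?_ ?_
    · intro d hd
      rw [Finset.mem_range] at hd ⊢
      exact cyc_lt hab hd
    · intro y hy
      rw [Finset.mem_range] at hy ⊢
      change cycg a y < b + 1
      have := cycg_cases a y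
      omega
    · intro d _; simp
    · intro y _; simp
    · intro d _; rfl
  set f : ℕ → ℂ := Tw (s2f a b) w' (Tw (s1f a b) w' (ind c)) with hf
  have e1 : ∀ d, Gm w a b c' d * Gn w' a b d c =
      (fun y => Tw (s1f a b) w (Tw (s2f a b) w (ind y)) c' * f y) (cyc a d) := fun d => rfl
  rw [Finset.sum_congr rfl fun d _ => e1 d,
    hF (fun y => Tw (s1f a b) w (Tw (s2f a b) w (ind y)) c' * f y)]
  have h0 : c' < b + 1 := by omega
  have hsym : ∀ y z, ind y z = ind z y := by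
    intro y z
    unfold ind
    simp only [eq_comm]
  have e : ∀ y, Tw (s1f a b) w (Tw (s2f a b) w (ind y)) c' * f y =
      (1 + w) / 2 * ((1 + w) / 2 * (ind y c' * f y) +
        (1 - w) / 2 * (ind y (s2f a b c') * f y)) +
      (1 - w) / 2 * ((1 + w) / 2 * (ind y (s1f a b c') * f y) +
        (1 - w) / 2 * (ind y (s2f a b (s1f a b c')) * f y)) := by
    intro y
    unfold Tw
    ring
  rw [Finset.sum_congr rfl fun d _ => e d, Finset.sum_add_distrib, ← Finset.mul_sum,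
    ← Finset.mul_sum, Finset.sum_add_distrib, Finset.sum_add_distrib, ← Finset.mul_sum,
    ← Finset.mul_sum, ← Finset.mul_sum, ← Finset.mul_sum, sum_ind_mul _ _ h0,
    sum_ind_mul _ _ (s2_lt h0), sum_ind_mul _ _ (s1_lt hab h0),
    sum_ind_mul _ _ (s2_lt (s1_lt hab h0))]
  have e2 : (1 + w) / 2 * ((1 + w) / 2 * f c' + (1 - w) / 2 * f (s2f a b c')) +
      (1 - w) / 2 * ((1 + w) / 2 * f (s1f a b c') +
        (1 - w) / 2 * f (s2f a b (s1f a b c'))) = Tw (s1f a b) w (Tw (s2f a b) w f) c' := rfl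
  rw [e2, hf, Tw_mul _ (s2f_inv a b) _ _ h, Tw_mul _ (s1f_inv a b) _ _ h]
  rfl

/-! ### norms -/

lemma half_bound {w : ℂ} (hw : ‖w‖ = 1) : ‖(1 + w) / 2‖ ≤ 1 ∧ ‖(1 - w) / 2‖ ≤ 1 := by
  constructor
  · rw [norm_div]
    have : ‖1 + w‖ ≤ 2 := (norm_add_le _ _).trans (by rw [norm_one, hw]; norm_num)
    have h2 : ‖(2 : ℂ)‖ = 2 := by norm_num
    rw [h2]
    linarith
  · rw [norm_div]
    have : ‖1 - w‖ ≤ 2 := (norm_sub_le _ _).trans (by rw [norm_one, hw]; norm_num)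
    have h2 : ‖(2 : ℂ)‖ = 2 := by norm_num
    rw [h2]
    linarith

lemma Tw_norm {w : ℂ} (hw : ‖w‖ = 1) (s : ℕ → ℕ) (f : ℕ → ℂ) (y : ℕ) :
    ‖Tw s w f y‖ ≤ ‖f y‖ + ‖f (s y)‖ := by
  unfold Tw
  obtain ⟨h1, h2⟩ := half_bound hw
  refine (norm_add_le _ _).trans ?_
  rw [norm_mul, norm_mul]
  exact add_le_add (mul_le_of_le_one_left (norm_nonneg _) h1)
    (mul_le_of_le_one_left (norm_nonneg _) h2)

lemma Tw_sub (s : ℕ → ℕ) (w w' : ℂ) (f : ℕ → ℂ) (y : ℕ) :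
    ‖Tw s w f y - Tw s w' f y‖ ≤ ‖w - w'‖ / 2 * (‖f y‖ + ‖f (s y)‖) := by
  have e : Tw s w f y - Tw s w' f y = (w - w') / 2 * (f y - f (s y)) := by
    unfold Tw
    ring
  rw [e, norm_mul, norm_div]
  have h2 : ‖(2 : ℂ)‖ = 2 := by norm_num
  rw [h2]
  exact mul_le_mul_of_nonneg_left (norm_sub_le _ _) (by positivity)

/-- all finite sums of the family `F i y` along the injective curve `(x ↦ (p x, q x))` -/
lemma TT_norm {w : ℂ} (hw : ‖w‖ = 1) (s s' : ℕ → ℕ) (f : ℕ → ℂ) (y : ℕ) :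
    ‖Tw s w (Tw s' w f) y‖ ≤
      ‖f y‖ + ‖f (s' y)‖ + (‖f (s y)‖ + ‖f (s' (s y))‖) :=
  (Tw_norm hw s _ y).trans (add_le_add (Tw_norm hw s' f y) (Tw_norm hw s' f (s y)))

lemma TT_sub {w w' : ℂ} (hw : ‖w‖ = 1) (hw' : ‖w'‖ = 1) (s s' : ℕ → ℕ) (f : ℕ → ℂ) (y : ℕ) :
    ‖Tw s w (Tw s' w f) y - Tw s w' (Tw s' w' f) y‖ ≤
      ‖w - w'‖ * (‖f y‖ + ‖f (s' y)‖ + (‖f (s y)‖ + ‖f (s' (s y))‖)) := by
  have e1 : Tw s w (Tw s' w f) y - Tw s w (Tw s' w' f) y =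
      Tw s w (fun z => Tw s' w f z - Tw s' w' f z) y := by
    unfold Tw
    ring
  have h1 : ‖Tw s w (Tw s' w f) y - Tw s w (Tw s' w' f) y‖ ≤
      ‖w - w'‖ / 2 * (‖f y‖ + ‖f (s' y)‖) + ‖w - w'‖ / 2 * (‖f (s y)‖ + ‖f (s' (s y))‖) := by
    rw [e1]
    exact (Tw_norm hw s _ y).trans (add_le_add (Tw_sub s' w w' f y) (Tw_sub s' w w' f (s y)))
  have h2 : ‖Tw s w (Tw s' w' f) y - Tw s w' (Tw s' w' f) y‖ ≤
      ‖w - w'‖ / 2 * ((‖f y‖ + ‖f (s' y)‖) + (‖f (s y)‖ + ‖f (s' (s y))‖)) :=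
    (Tw_sub s w w' _ y).trans (mul_le_mul_of_nonneg_left
      (add_le_add (Tw_norm hw' s' f y) (Tw_norm hw' s' f (s y))) (by positivity))
  calc _ = ‖(Tw s w (Tw s' w f) y - Tw s w (Tw s' w' f) y) +
        (Tw s w (Tw s' w' f) y - Tw s w' (Tw s' w' f) y)‖ := by congr 1; ring
    _ ≤ _ := norm_add_le _ _
    _ ≤ _ := add_le_add h1 h2
    _ = _ := by ring

lemma sum_ind_le {ρ : ℕ → ℕ} (hρ : Function.Injective ρ) (y : ℕ) (S : Finset ℕ) :
    ∑ d ∈ S, ‖ind (ρ d) y‖ ≤ 1 := by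
  unfold ind
  have e : ∀ d, ‖(if y = ρ d then (1 : ℂ) else 0)‖ = if y = ρ d then 1 else 0 := by
    intro d
    split_ifs <;> simp
  simp only [e]
  by_cases h : ∃ d ∈ S, y = ρ d
  · obtain ⟨d, hd, hy⟩ := h
    rw [Finset.sum_eq_single_of_mem d hd]
    · simp [hy]
    · intro d' _ hd'
      rw [if_neg]
      rw [hy]
      intro h1
      exact hd' (hρ h1).symm
  · push Not at h
    rw [Finset.sum_eq_zero]
    · exact zero_le_one
    · intro d hd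
      rw [if_neg (h d hd)]

lemma sum_ind_le' {ρ : ℕ → ℕ} (hρ : Function.Injective ρ) (y : ℕ) (S : Finset ℕ) :
    ∑ d ∈ S, ‖ind y (ρ d)‖ ≤ 1 := by
  have e : ∀ d, ind y (ρ d) = ind (ρ d) y := by
    intro d
    unfold ind
    simp only [eq_comm]
  simp only [e]
  exact sum_ind_le hρ y S

/-- sums of four indicators -/
lemma four {F1 F2 F3 F4 : ℕ → ℝ} (S : Finset ℕ) (h1 : ∑ d ∈ S, F1 d ≤ 1)
    (h2 : ∑ d ∈ S, F2 d ≤ 1) (h3 : ∑ d ∈ S, F3 d ≤ 1) (h4 : ∑ d ∈ S, F4 d ≤ 1) :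
    ∑ d ∈ S, (F1 d + F2 d + (F3 d + F4 d)) ≤ 4 := by
  rw [Finset.sum_add_distrib, Finset.sum_add_distrib, Finset.sum_add_distrib]
  linarith

lemma sums4 (a b : ℕ) (c : ℕ) (S : Finset ℕ) :
    (∑ d ∈ S, (‖ind (cyc a d) c‖ + ‖ind (cyc a d) (s2f a b c)‖ +
      (‖ind (cyc a d) (s1f a b c)‖ + ‖ind (cyc a d) (s2f a b (s1f a b c))‖)) ≤ 4) ∧
    (∑ d ∈ S, (‖ind (cyc a c) d‖ + ‖ind (cyc a c) (s2f a b d)‖ +
      (‖ind (cyc a c) (s1f a b d)‖ + ‖ind (cyc a c) (s2f a b (s1f a b d))‖)) ≤ 4) ∧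
    (∑ d ∈ S, (‖ind d (cyc a c)‖ + ‖ind d (s1f a b (cyc a c))‖ +
      (‖ind d (s2f a b (cyc a c))‖ + ‖ind d (s1f a b (s2f a b (cyc a c)))‖)) ≤ 4) ∧
    (∑ d ∈ S, (‖ind c (cyc a d)‖ + ‖ind c (s1f a b (cyc a d))‖ +
      (‖ind c (s2f a b (cyc a d))‖ + ‖ind c (s1f a b (s2f a b (cyc a d)))‖)) ≤ 4) := by
  have i1 := (s1f_inv a b).injective
  have i2 := (s2f_inv a b).injective
  have ic := (cyc a).injective
  refine ⟨four S ?_ ?_ ?_ ?_, four S ?_ ?_ ?_ ?_, four S ?_ ?_ ?_ ?_, four S ?_ ?_ ?_ ?_⟩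
  · exact sum_ind_le ic _ S
  · exact sum_ind_le ic _ S
  · exact sum_ind_le ic _ S
  · exact sum_ind_le ic _ S
  · exact sum_ind_le' (ρ := fun d => d) Function.injective_id _ S
  · exact sum_ind_le' i2 _ S
  · exact sum_ind_le' i1 _ S
  · exact sum_ind_le' (ρ := fun d => s2f a b (s1f a b d)) (i2.comp i1) _ S
  · exact sum_ind_le (ρ := fun d => d) Function.injective_id _ S
  · exact sum_ind_le (ρ := fun d => d) Function.injective_id _ S
  · exact sum_ind_le (ρ := fun d => d) Function.injective_id _ S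
  · exact sum_ind_le (ρ := fun d => d) Function.injective_id _ S
  · exact sum_ind_le' ic _ S
  · exact sum_ind_le' (ρ := fun d => s1f a b (cyc a d)) (i1.comp ic) _ S
  · exact sum_ind_le' (ρ := fun d => s2f a b (cyc a d)) (i2.comp ic) _ S
  · exact sum_ind_le' (ρ := fun d => s1f a b (s2f a b (cyc a d))) (i1.comp (i2.comp ic)) _ S

lemma G_sums {w : ℂ} (hw : ‖w‖ = 1) (a b c : ℕ) (S : Finset ℕ) :
    ∑ d ∈ S, ‖Gm w a b c d‖ ≤ 4 ∧ ∑ d ∈ S, ‖Gm w a b d c‖ ≤ 4 ∧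
      ∑ d ∈ S, ‖Gn w a b c d‖ ≤ 4 ∧ ∑ d ∈ S, ‖Gn w a b d c‖ ≤ 4 := by
  obtain ⟨h1, h2, h3, h4⟩ := sums4 a b c S
  exact ⟨(Finset.sum_le_sum fun d _ => TT_norm hw _ _ _ _).trans h1,
    (Finset.sum_le_sum fun d _ => TT_norm hw _ _ _ _).trans h2,
    (Finset.sum_le_sum fun d _ => TT_norm hw _ _ _ _).trans h3,
    (Finset.sum_le_sum fun d _ => TT_norm hw _ _ _ _).trans h4⟩

lemma G_diff {w w' : ℂ} (hw : ‖w‖ = 1) (hw' : ‖w'‖ = 1) (a b c : ℕ) (S : Finset ℕ) :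
    ∑ d ∈ S, ‖Gm w a b c d - Gm w' a b c d‖ ≤ ‖w - w'‖ * 4 ∧
      ∑ d ∈ S, ‖Gm w a b d c - Gm w' a b d c‖ ≤ ‖w - w'‖ * 4 := by
  obtain ⟨h1, h2, h3, h4⟩ := sums4 a b c S
  refine ⟨?_, ?_⟩
  · refine (Finset.sum_le_sum fun d _ => TT_sub hw hw' _ _ _ _).trans ?_
    rw [← Finset.mul_sum]
    exact mul_le_mul_of_nonneg_left h1 (norm_nonneg _)
  · refine (Finset.sum_le_sum fun d _ => TT_sub hw hw' _ _ _ _).trans ?_
    rw [← Finset.mul_sum]
    exact mul_le_mul_of_nonneg_left h2 (norm_nonneg _)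

lemma G_diff' {w w' : ℂ} (hw : ‖w‖ = 1) (hw' : ‖w'‖ = 1) (a b c : ℕ) (S : Finset ℕ) :
    ∑ d ∈ S, ‖Gn w a b c d - Gn w' a b c d‖ ≤ ‖w - w'‖ * 4 ∧
      ∑ d ∈ S, ‖Gn w a b d c - Gn w' a b d c‖ ≤ ‖w - w'‖ * 4 := by
  obtain ⟨h1, h2, h3, h4⟩ := sums4 a b c S
  refine ⟨?_, ?_⟩
  · refine (Finset.sum_le_sum fun d _ => TT_sub hw hw' _ _ _ _).trans ?_
    rw [← Finset.mul_sum]
    exact mul_le_mul_of_nonneg_left h3 (norm_nonneg _)
  · refine (Finset.sum_le_sum fun d _ => TT_sub hw hw' _ _ _ _).trans ?_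
    rw [← Finset.mul_sum]
    exact mul_le_mul_of_nonneg_left h4 (norm_nonneg _)

/-! ### the parameters -/

/-- the cut points -/
def Kq (κ : ℕ → ℕ) (i : ℕ) : ℕ := i + ∑ j ∈ Finset.range ((i + 1) ^ 2 + 2), κ j

lemma Kq_lt (κ : ℕ → ℕ) (i : ℕ) : Kq κ i < Kq κ (i + 1) := by
  unfold Kq
  have : ∑ j ∈ Finset.range ((i + 1) ^ 2 + 2), κ j ≤
      ∑ j ∈ Finset.range ((i + 1 + 1) ^ 2 + 2), κ j := by
    apply Finset.sum_le_sum_of_subset
    apply Finset.range_mono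
    have : (i + 1) ^ 2 ≤ (i + 1 + 1) ^ 2 := Nat.pow_le_pow_left (by omega) 2
    omega
  omega

lemma le_Kq (κ : ℕ → ℕ) (i j : ℕ) (h : j ≤ (i + 1) ^ 2 + 1) : κ j ≤ Kq κ i := by
  unfold Kq
  have : κ j ≤ ∑ j ∈ Finset.range ((i + 1) ^ 2 + 2), κ j :=
    Finset.single_le_sum (f := κ) (fun _ _ => Nat.zero_le _) (Finset.mem_range.2 (by omega))
  omega

/-- the parameter on the circle -/
def Wt (i m : ℕ) : ℂ := Complex.exp (Complex.I * ((Real.pi * m / (2 * i + 1) : ℝ) : ℂ))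

lemma Wt_norm (i m : ℕ) : ‖Wt i m‖ = 1 := by
  unfold Wt
  rw [mul_comm]
  exact Complex.norm_exp_ofReal_mul_I _

lemma Wt_zero (i : ℕ) : Wt i 0 = 1 := by
  unfold Wt
  simp

lemma Wt_end (i : ℕ) : Wt i (2 * i + 1) = -1 := by
  unfold Wt
  have : (Real.pi * ((2 * i + 1 : ℕ) : ℝ) / (2 * i + 1) : ℝ) = Real.pi := by
    push_cast
    field_simp
  rw [this, mul_comm]
  exact Complex.exp_pi_mul_I

lemma Wt_diff (i m : ℕ) : ‖Wt i (m + 1) - Wt i m‖ ≤ Real.pi / (2 * i + 1) := by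
  have e : Wt i (m + 1) - Wt i m =
      Wt i m * (Complex.exp (Complex.I * ((Real.pi / (2 * i + 1) : ℝ) : ℂ)) - 1) := by
    unfold Wt
    rw [mul_sub, mul_one, ← Complex.exp_add]
    congr 2
    push_cast
    ring
  rw [e, norm_mul, Wt_norm, one_mul]
  refine (Real.norm_exp_I_mul_ofReal_sub_one_le).trans ?_
  rw [Real.norm_of_nonneg (by positivity)]

lemma Wt_inv (i m : ℕ) : Wt i m * (Wt i m)⁻¹ = 1 := by
  apply mul_inv_cancel₀
  rw [← norm_ne_zero_iff, Wt_norm]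
  exact one_ne_zero

lemma Wt_inv_norm (i m : ℕ) : ‖(Wt i m)⁻¹‖ = 1 := by
  rw [norm_inv, Wt_norm, inv_one]

lemma Wt_inv_diff (i m : ℕ) : ‖(Wt i (m + 1))⁻¹ - (Wt i m)⁻¹‖ ≤ Real.pi / (2 * i + 1) := by
  have h0 : Wt i m ≠ 0 := by rw [← norm_ne_zero_iff, Wt_norm]; exact one_ne_zero
  have h1 : Wt i (m + 1) ≠ 0 := by rw [← norm_ne_zero_iff, Wt_norm]; exact one_ne_zero
  have e : (Wt i (m + 1))⁻¹ - (Wt i m)⁻¹ =
      (Wt i (m + 1))⁻¹ * (Wt i m)⁻¹ * (Wt i m - Wt i (m + 1)) := by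
    field_simp
  rw [e, norm_mul, norm_mul, Wt_inv_norm, Wt_inv_norm, one_mul, one_mul, norm_sub_rev]
  exact Wt_diff i m

/-- the family `g` -/
def gg (κ : ℕ → ℕ) (j c' c : ℕ) : ℂ :=
  Gm (Wt (Nat.sqrt j) (j - Nat.sqrt j ^ 2)) (Kq κ (Nat.sqrt j)) (Kq κ (Nat.sqrt j + 1)) c' c

/-- the family of inverses -/
def gn (κ : ℕ → ℕ) (j c' c : ℕ) : ℂ :=
  Gn (Wt (Nat.sqrt j) (j - Nat.sqrt j ^ 2))⁻¹ (Kq κ (Nat.sqrt j)) (Kq κ (Nat.sqrt j + 1)) c' c

lemma sqrt_step (j : ℕ) : Nat.sqrt (j + 1) = Nat.sqrt j ∨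
    (Nat.sqrt (j + 1) = Nat.sqrt j + 1 ∧ j + 1 = (Nat.sqrt j + 1) ^ 2) := by
  have h1 := Nat.sqrt_le' j
  have h2 := Nat.lt_succ_sqrt' j
  have h3 : j + 1 ≤ (Nat.sqrt j + 1) ^ 2 := h2
  rcases h3.eq_or_lt with h | h
  · right
    refine ⟨?_, h⟩
    rw [h]
    exact Nat.sqrt_eq' _
  · left
    apply le_antisymm
    · have : Nat.sqrt (j + 1) < Nat.sqrt j + 1 := Nat.sqrt_lt'.2 h
      omega
    · exact Nat.sqrt_le_sqrt (Nat.le_succ j)

lemma gg_succ (κ : ℕ → ℕ) (j c' c : ℕ) :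
    gg κ (j + 1) c' c = Gm (Wt (Nat.sqrt j) (j - Nat.sqrt j ^ 2 + 1)) (Kq κ (Nat.sqrt j))
      (Kq κ (Nat.sqrt j + 1)) c' c := by
  have h1 := Nat.sqrt_le' j
  rcases sqrt_step j with h | ⟨h, h'⟩
  · unfold gg
    rw [h]
    congr 2
    omega
  · unfold gg
    rw [h]
    have e1 : j + 1 - (Nat.sqrt j + 1) ^ 2 = 0 := by omega
    have e2 : j - Nat.sqrt j ^ 2 + 1 = 2 * Nat.sqrt j + 1 := by
      have : (Nat.sqrt j + 1) ^ 2 = Nat.sqrt j ^ 2 + 2 * Nat.sqrt j + 1 := by ring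
      omega
    rw [e1, e2, Wt_zero, Wt_end]
    exact (Gm_end _ _ (Kq_lt κ _) _ _ _).symm

lemma gn_succ (κ : ℕ → ℕ) (j c' c : ℕ) :
    gn κ (j + 1) c' c = Gn (Wt (Nat.sqrt j) (j - Nat.sqrt j ^ 2 + 1))⁻¹ (Kq κ (Nat.sqrt j))
      (Kq κ (Nat.sqrt j + 1)) c' c := by
  have h1 := Nat.sqrt_le' j
  rcases sqrt_step j with h | ⟨h, h'⟩
  · unfold gn
    rw [h]
    congr 3
    omega
  · unfold gn
    rw [h]
    have e1 : j + 1 - (Nat.sqrt j + 1) ^ 2 = 0 := by omega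
    have e2 : j - Nat.sqrt j ^ 2 + 1 = 2 * Nat.sqrt j + 1 := by
      have : (Nat.sqrt j + 1) ^ 2 = Nat.sqrt j ^ 2 + 2 * Nat.sqrt j + 1 := by ring
      omega
    rw [e1, e2, Wt_zero, Wt_end, inv_one, inv_neg, inv_one]
    exact (Gn_end _ _ (Kq_lt κ _) _ _ _).symm

lemma kap1 (κ : ℕ → ℕ) (j : ℕ) : κ j ≤ Kq κ (Nat.sqrt j) := by
  apply le_Kq
  have := Nat.lt_succ_sqrt' j
  have h3 : j < (Nat.sqrt j + 1) ^ 2 := this
  omega

lemma kap2 (κ : ℕ → ℕ) (j : ℕ) : κ (j + 1) ≤ Kq κ (Nat.sqrt j) := by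
  apply le_Kq
  have := Nat.lt_succ_sqrt' j
  have h3 : j < (Nat.sqrt j + 1) ^ 2 := this
  omega

theorem cycStmt : CycStmt := by
  intro κ
  refine ⟨fun j => Kq κ (Nat.sqrt j + 1), gg κ, gn κ, ?_, ?_, ?_, ?_, ?_, ?_, ?_, ?_⟩
  · intro j c' c h
    exact ⟨Gm_out (Kq_lt κ _) h, Gn_out (Kq_lt κ _) h⟩
  · intro j c S
    obtain ⟨h1, h2, _, _⟩ := G_sums (Wt_norm (Nat.sqrt j) (j - Nat.sqrt j ^ 2))
      (Kq κ (Nat.sqrt j)) (Kq κ (Nat.sqrt j + 1)) c S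
    obtain ⟨_, _, h3, h4⟩ := G_sums (Wt_inv_norm (Nat.sqrt j) (j - Nat.sqrt j ^ 2))
      (Kq κ (Nat.sqrt j)) (Kq κ (Nat.sqrt j + 1)) c S
    refine ⟨?_, ?_, ?_, ?_⟩
    · exact h1.trans (by norm_num)
    · exact h2.trans (by norm_num)
    · exact h3.trans (by norm_num)
    · exact h4.trans (by norm_num)
  · intro j c' c hc' hc
    exact ⟨inv1 _ _ (Wt_inv _ _) _ _ (Kq_lt κ _) c' c hc',
      inv2 _ _ (Wt_inv _ _) _ _ (Kq_lt κ _) c' c hc'⟩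
  · intro j c' c h
    exact Gm_adm (Kq_lt κ _) (kap1 κ j) h
  · intro j c' c h
    exact Gn_adm (Kq_lt κ _) (kap1 κ j) h
  · intro ε hε
    obtain ⟨n, hn⟩ := exists_nat_gt (Real.pi * 4 / ε)
    refine ⟨n ^ 2, fun j hj c S => ?_⟩
    have hs : n ≤ Nat.sqrt j := Nat.le_sqrt'.2 hj
    have hb : Real.pi / (2 * (Nat.sqrt j : ℝ) + 1) * 4 ≤ ε := by
      have h1 : (n : ℝ) ≤ Nat.sqrt j := by exact_mod_cast hs
      have h2 : Real.pi * 4 < n * ε := by rwa [div_lt_iff₀ hε] at hn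
      rw [div_mul_eq_mul_div, div_le_iff₀ (by positivity)]
      have h3 : (n : ℝ) * ε ≤ Nat.sqrt j * ε := mul_le_mul_of_nonneg_right h1 hε.le
      have h4 : (0 : ℝ) ≤ Nat.sqrt j * ε := by positivity
      nlinarith
    have d1 : ‖Wt (Nat.sqrt j) (j - Nat.sqrt j ^ 2 + 1) - Wt (Nat.sqrt j) (j - Nat.sqrt j ^ 2)‖ *
        4 ≤ ε := (mul_le_mul_of_nonneg_right (Wt_diff _ _) (by norm_num)).trans hb
    have d2 : ‖(Wt (Nat.sqrt j) (j - Nat.sqrt j ^ 2 + 1))⁻¹ -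
        (Wt (Nat.sqrt j) (j - Nat.sqrt j ^ 2))⁻¹‖ * 4 ≤ ε :=
      (mul_le_mul_of_nonneg_right (Wt_inv_diff _ _) (by norm_num)).trans hb
    obtain ⟨h1, h2⟩ := G_diff (Wt_norm (Nat.sqrt j) (j - Nat.sqrt j ^ 2 + 1))
      (Wt_norm (Nat.sqrt j) (j - Nat.sqrt j ^ 2)) (Kq κ (Nat.sqrt j)) (Kq κ (Nat.sqrt j + 1)) c S
    obtain ⟨h3, h4⟩ := G_diff' (Wt_inv_norm (Nat.sqrt j) (j - Nat.sqrt j ^ 2 + 1))
      (Wt_inv_norm (Nat.sqrt j) (j - Nat.sqrt j ^ 2)) (Kq κ (Nat.sqrt j))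
      (Kq κ (Nat.sqrt j + 1)) c S
    refine ⟨?_, ?_, ?_, ?_⟩
    · simp only [gg_succ]
      exact h1.trans d1
    · simp only [gg_succ]
      exact h2.trans d1
    · simp only [gn_succ]
      exact h3.trans d2
    · simp only [gn_succ]
      exact h4.trans d2
  · intro j c' c h
    rw [gg_succ] at h
    have k1 := kap1 κ j
    have k2 := kap2 κ j
    have hab := Kq_lt κ (Nat.sqrt j)
    have hc : ¬ c < Kq κ (Nat.sqrt j) := by
      intro hc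
      apply h
      unfold gg
      rw [Gm_col (Or.inl hc) hab, Gm_col (Or.inl hc) hab]
    have hc' : ¬ (c' ≠ 0 ∧ c' ≤ Kq κ (Nat.sqrt j)) := by
      intro hc'
      apply h
      unfold gg
      rw [Gm_row (Or.inl hc') hab, Gm_row (Or.inl hc') hab]
    omega
  · intro j c' c h
    rw [gn_succ] at h
    have k1 := kap1 κ j
    have k2 := kap2 κ j
    have hab := Kq_lt κ (Nat.sqrt j)
    have hc : ¬ c' < Kq κ (Nat.sqrt j) := by
      intro hc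
      apply h
      unfold gn
      rw [Gn_row (Or.inl hc) hab, Gn_row (Or.inl hc) hab]
    have hc' : ¬ (c ≠ 0 ∧ c ≤ Kq κ (Nat.sqrt j)) := by
      intro hc'
      apply h
      unfold gn
      rw [Gn_col (Or.inl hc') hab, Gn_col (Or.inl hc') hab]
    omega

end Pool.Agent.H32.BDFP
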