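import Pool.Agent.H33.BDFP.Stmts

attribute [local instance] Pool.Agent.H33.BDFP.NV.instNACG Pool.Agent.H33.BDFP.NV.instModule
  Pool.Agent.H33.BDFP.NV.instNormedSpace Pool.Agent.H33.BDFP.NV.instFD
  Pool.Agent.H33.BDFP.NV.instComplete

/-!
Module KH: Khintchine inequalities for vectors in an inner product space.
-/

open scoped ENNReal NNReal

noncomputable section

namespace Pool.Agent.H32.BDFP

open Pool.Agent.H33.BDFP

lemma pow_pm (k : ℕ) (A t s : ℝ) (ht : |t| ≤ s) (hs : s ≤ A) :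
    (A + t) ^ k + (A - t) ^ k ≤ (A + s) ^ k + (A - s) ^ k := by
  have hs0 : 0 ≤ s := (abs_nonneg t).trans ht
  rcases hs0.eq_or_lt with h0 | h0
  · subst h0
    have : t = 0 := abs_nonpos_iff.1 ht
    subst this
    exact le_rfl
  · have hc := convexOn_pow (𝕜 := ℝ) k
    obtain ⟨h1, h2⟩ := abs_le.1 ht
    have ha : 0 ≤ (s + t) / (2 * s) := by
      apply div_nonneg <;> linarith
    have hb : 0 ≤ (s - t) / (2 * s) := by
      apply div_nonneg <;> linarith
    have hab : (s + t) / (2 * s) + (s - t) / (2 * s) = 1 := by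
      field_simp; ring
    have hx : (A + s) ∈ Set.Ici (0 : ℝ) := by simp only [Set.mem_Ici]; linarith
    have hy : (A - s) ∈ Set.Ici (0 : ℝ) := by simp only [Set.mem_Ici]; linarith
    have e1 := hc.2 hx hy ha hb hab
    have e2 := hc.2 hx hy hb ha (by rw [add_comm]; exact hab)
    simp only [smul_eq_mul] at e1 e2
    have i1 : (s + t) / (2 * s) * (A + s) + (s - t) / (2 * s) * (A - s) = A + t := by
      field_simp; ring
    have i2 : (s - t) / (2 * s) * (A + s) + (s + t) / (2 * s) * (A - s) = A - t := by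
      field_simp; ring
    rw [i1] at e1
    rw [i2] at e2
    have h3 : (s + t) / (2 * s) * (A + s) ^ k + (s - t) / (2 * s) * (A - s) ^ k +
        ((s - t) / (2 * s) * (A + s) ^ k + (s + t) / (2 * s) * (A - s) ^ k) =
        ((s + t) / (2 * s) + (s - t) / (2 * s)) * ((A + s) ^ k + (A - s) ^ k) := by ring
    rw [hab, one_mul] at h3
    linarith

lemma cosh_sqrt_hasSum {u : ℝ} (hu : 0 ≤ u) :
    HasSum (fun n : ℕ => u ^ n / (2 * n).factorial) (Real.cosh (Real.sqrt u)) := by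
  have h := Real.hasSum_cosh (Real.sqrt u)
  convert h using 2 with n
  rw [pow_mul, Real.sq_sqrt hu]

lemma cosh_sqrt_pm (A t s : ℝ) (ht : |t| ≤ s) (hs : s ≤ A) :
    Real.cosh (Real.sqrt (A + t)) + Real.cosh (Real.sqrt (A - t)) ≤
      Real.cosh (Real.sqrt (A + s)) + Real.cosh (Real.sqrt (A - s)) := by
  obtain ⟨h1, h2⟩ := abs_le.1 ht
  have hA1 : 0 ≤ A + t := by linarith
  have hA2 : 0 ≤ A - t := by linarith
  have hA3 : 0 ≤ A + s := by linarith
  have hA4 : 0 ≤ A - s := by linarith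
  refine hasSum_le ?_ ((cosh_sqrt_hasSum hA1).add (cosh_sqrt_hasSum hA2))
    ((cosh_sqrt_hasSum hA3).add (cosh_sqrt_hasSum hA4))
  intro n
  rw [← add_div, ← add_div]
  exact div_le_div_of_nonneg_right (pow_pm n A t s ht hs) (by positivity)

section

variable {E : Type} [NormedAddCommGroup E] [InnerProductSpace ℂ E]

lemma cosh_pm (x c : E) :
    Real.cosh ‖x + c‖ + Real.cosh ‖x - c‖ ≤ 2 * (Real.cosh ‖x‖ * Real.cosh ‖c‖) := by
  have h1 : ‖x + c‖ ^ 2 = (‖x‖ ^ 2 + ‖c‖ ^ 2) + 2 * (inner ℂ x c).re := by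
    have := @norm_add_sq ℂ E _ _ _ x c
    rw [this]
    change _ + 2 * (inner ℂ x c).re + _ = _
    ring
  have h2 : ‖x - c‖ ^ 2 = (‖x‖ ^ 2 + ‖c‖ ^ 2) - 2 * (inner ℂ x c).re := by
    have := @norm_sub_sq ℂ E _ _ _ x c
    rw [this]
    change _ - 2 * (inner ℂ x c).re + _ = _
    ring
  have h3 : |2 * (inner ℂ x c).re| ≤ 2 * ‖x‖ * ‖c‖ := by
    rw [abs_mul, abs_two, mul_assoc]
    refine mul_le_mul_of_nonneg_left ?_ zero_le_two
    exact (Complex.abs_re_le_norm _).trans (norm_inner_le_norm x c)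
  have h4 : 2 * ‖x‖ * ‖c‖ ≤ ‖x‖ ^ 2 + ‖c‖ ^ 2 := two_mul_le_add_sq _ _
  have h5 := cosh_sqrt_pm _ _ _ h3 h4
  rw [← h1, ← h2, Real.sqrt_sq (norm_nonneg _), Real.sqrt_sq (norm_nonneg _)] at h5
  have e1 : ‖x‖ ^ 2 + ‖c‖ ^ 2 + 2 * ‖x‖ * ‖c‖ = (‖x‖ + ‖c‖) ^ 2 := by ring
  have e2 : ‖x‖ ^ 2 + ‖c‖ ^ 2 - 2 * ‖x‖ * ‖c‖ = (‖x‖ - ‖c‖) ^ 2 := by ring
  rw [e1, e2, Real.sqrt_sq_eq_abs, Real.sqrt_sq_eq_abs, Real.cosh_abs, Real.cosh_abs,
    Real.cosh_add, Real.cosh_sub] at h5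
  linarith

lemma sum_bool_cons {n : ℕ} (f : (Fin (n + 1) → Bool) → ℝ) :
    ∑ ε : Fin (n + 1) → Bool, f ε = ∑ b : Bool, ∑ ε : Fin n → Bool, f (Fin.cons b ε) := by
  rw [← Fintype.sum_prod_type']
  exact (Fintype.sum_equiv (Fin.consEquiv (fun _ => Bool)) _ _ (fun _ => rfl)).symm

lemma sum_cosh_le (n : ℕ) (c : Fin n → E) (x : E) :
    ∑ ε : Fin n → Bool, Real.cosh ‖x + ∑ i, sgn (ε i) • c i‖ ≤
      2 ^ n * (Real.cosh ‖x‖ * ∏ i, Real.cosh ‖c i‖) := by
  induction n generalizing x with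
  | zero => simp
  | succ n ih =>
    rw [sum_bool_cons]
    have h1 : ∀ b : Bool, ∑ ε : Fin n → Bool,
        Real.cosh ‖x + ∑ i, sgn ((Fin.cons b ε : Fin (n + 1) → Bool) i) • c i‖ ≤
        2 ^ n * (Real.cosh ‖x + sgn b • c 0‖ * ∏ i : Fin n, Real.cosh ‖c i.succ‖) := by
      intro b
      refine le_trans (le_of_eq ?_) (ih (fun i => c i.succ) (x + sgn b • c 0))
      refine Finset.sum_congr rfl fun ε _ => ?_
      rw [Fin.sum_univ_succ, add_assoc]
      simp only [Fin.cons_zero, Fin.cons_succ]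
    refine (Finset.sum_le_sum fun b _ => h1 b).trans ?_
    rw [Fintype.sum_bool, Fin.prod_univ_succ]
    have h2 := cosh_pm x (c 0)
    have h3 : 0 ≤ ∏ i : Fin n, Real.cosh ‖c i.succ‖ :=
      Finset.prod_nonneg fun i _ => (Real.cosh_pos _).le
    have e1 : sgn true • c 0 = c 0 := by simp [sgn]
    have e2 : x + sgn false • c 0 = x - c 0 := by simp [sgn, sub_eq_add_neg]
    rw [e1, e2]
    have h4 : (Real.cosh ‖x + c 0‖ + Real.cosh ‖x - c 0‖) * ∏ i : Fin n, Real.cosh ‖c i.succ‖ ≤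
        2 * (Real.cosh ‖x‖ * Real.cosh ‖c 0‖) * ∏ i : Fin n, Real.cosh ‖c i.succ‖ :=
      mul_le_mul_of_nonneg_right h2 h3
    have h5 : (0 : ℝ) ≤ 2 ^ n := by positivity
    calc _ = 2 ^ n * ((Real.cosh ‖x + c 0‖ + Real.cosh ‖x - c 0‖) *
          ∏ i : Fin n, Real.cosh ‖c i.succ‖) := by ring
      _ ≤ 2 ^ n * (2 * (Real.cosh ‖x‖ * Real.cosh ‖c 0‖) *
          ∏ i : Fin n, Real.cosh ‖c i.succ‖) := mul_le_mul_of_nonneg_left h4 h5
      _ = _ := by ring

lemma sum_sq_eq (n : ℕ) (c : Fin n → E) (x : E) :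
    ∑ ε : Fin n → Bool, ‖x + ∑ i, sgn (ε i) • c i‖ ^ 2 = 2 ^ n * (‖x‖ ^ 2 + ∑ i, ‖c i‖ ^ 2) := by
  induction n generalizing x with
  | zero => simp
  | succ n ih =>
    rw [sum_bool_cons]
    have h1 : ∀ b : Bool, ∑ ε : Fin n → Bool,
        ‖x + ∑ i, sgn ((Fin.cons b ε : Fin (n + 1) → Bool) i) • c i‖ ^ 2 =
        2 ^ n * (‖x + sgn b • c 0‖ ^ 2 + ∑ i : Fin n, ‖c i.succ‖ ^ 2) := by
      intro b
      rw [← ih (fun i => c i.succ) (x + sgn b • c 0)]
      refine Finset.sum_congr rfl fun ε _ => ?_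
      rw [Fin.sum_univ_succ, add_assoc]
      simp only [Fin.cons_zero, Fin.cons_succ]
    rw [Finset.sum_congr rfl fun b _ => h1 b, Fintype.sum_bool, Fin.sum_univ_succ]
    have e1 : sgn true • c 0 = c 0 := by simp [sgn]
    have e2 : x + sgn false • c 0 = x - c 0 := by simp [sgn, sub_eq_add_neg]
    rw [e1, e2]
    have h2 := parallelogram_law_with_norm ℂ x (c 0)
    have h3 : ‖x + c 0‖ ^ 2 + ‖x - c 0‖ ^ 2 = 2 * (‖x‖ ^ 2 + ‖c 0‖ ^ 2) := by
      rw [sq, sq, sq, sq]; linarith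
    calc _ = 2 ^ n * (‖x + c 0‖ ^ 2 + ‖x - c 0‖ ^ 2 + 2 * ∑ i : Fin n, ‖c i.succ‖ ^ 2) := by
          ring
      _ = _ := by rw [h3]; ring

/-- transfer to `Fin n` -/
lemma signAvg_fin {ι : Type} [Fintype ι] [DecidableEq ι] (c : ι → E) (f : E → ℝ) :
    signAvg (fun ε : ι → Bool => f (∑ i, sgn (ε i) • c i)) =
      (∑ ε : Fin (Fintype.card ι) → Bool,
        f (∑ i, sgn (ε i) • c ((Fintype.equivFin ι).symm i))) / 2 ^ (Fintype.card ι) := by
  unfold signAvg
  congr 1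
  refine Fintype.sum_equiv (Equiv.arrowCongr (Fintype.equivFin ι) (Equiv.refl Bool)) _ _ ?_
  intro ε
  congr 1
  refine Fintype.sum_equiv (Fintype.equivFin ι) _ _ ?_
  intro i
  simp [Equiv.arrowCongr]

lemma signAvg_cosh {ι : Type} [Fintype ι] [DecidableEq ι] (c : ι → E) :
    signAvg (fun ε : ι → Bool => Real.cosh ‖∑ i, sgn (ε i) • c i‖) ≤ ∏ i, Real.cosh ‖c i‖ := by
  rw [signAvg_fin c (fun y => Real.cosh ‖y‖)]
  rw [div_le_iff₀ (by positivity)]
  have h := sum_cosh_le (Fintype.card ι) (fun i => c ((Fintype.equivFin ι).symm i)) 0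
  simp only [zero_add, norm_zero, Real.cosh_zero, one_mul] at h
  refine h.trans (le_of_eq ?_)
  rw [mul_comm]
  congr 1
  exact Fintype.prod_equiv (Fintype.equivFin ι).symm _ _ (fun _ => rfl)

lemma signAvg_sq {ι : Type} [Fintype ι] [DecidableEq ι] (c : ι → E) :
    signAvg (fun ε : ι → Bool => ‖∑ i, sgn (ε i) • c i‖ ^ 2) = ∑ i, ‖c i‖ ^ 2 := by
  rw [signAvg_fin c (fun y => ‖y‖ ^ 2)]
  rw [div_eq_iff (by positivity)]
  have h := sum_sq_eq (Fintype.card ι) (fun i => c ((Fintype.equivFin ι).symm i)) 0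
  simp only [zero_add, norm_zero, ne_eq, OfNat.ofNat_ne_zero, not_false_eq_true, zero_pow] at h
  rw [h, mul_comm]
  congr 1
  exact Fintype.sum_equiv (Fintype.equivFin ι).symm _ _ (fun _ => rfl)

lemma signAvg_mono {ι : Type} [Fintype ι] [DecidableEq ι] {f g : (ι → Bool) → ℝ}
    (h : ∀ ε, f ε ≤ g ε) : signAvg f ≤ signAvg g := by
  unfold signAvg
  exact div_le_div_of_nonneg_right (Finset.sum_le_sum fun ε _ => h ε) (by positivity)

lemma signAvg_mul {ι : Type} [Fintype ι] [DecidableEq ι] (f : (ι → Bool) → ℝ) (a : ℝ) :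
    signAvg (fun ε => a * f ε) = a * signAvg f := by
  unfold signAvg
  rw [← Finset.mul_sum, mul_div_assoc]

/-- Jensen -/
lemma signAvg_jensen {ι : Type} [Fintype ι] [DecidableEq ι] (f : (ι → Bool) → ℝ)
    (hf : ∀ ε, 0 ≤ f ε) (r : ℝ) (hr : 1 ≤ r) :
    (signAvg f) ^ r ≤ signAvg (fun ε => f ε ^ r) := by
  have h := Real.rpow_arith_mean_le_arith_mean_rpow (Finset.univ : Finset (ι → Bool))
    (fun _ => (1 : ℝ) / 2 ^ (Fintype.card ι)) f (fun _ _ => by positivity) (by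
      rw [Finset.sum_const, Finset.card_univ, Fintype.card_fun, Fintype.card_bool,
        nsmul_eq_mul]
      push_cast
      rw [mul_one_div_cancel]
      positivity) (fun ε _ => hf ε) hr
  unfold signAvg
  rw [← Finset.mul_sum, ← Finset.mul_sum] at h
  rw [div_eq_inv_mul, div_eq_inv_mul]
  simpa [one_div] using h

lemma rpow_le_cosh (p : ℝ) (hp : 2 ≤ p) : ∃ C : ℝ, 1 ≤ C ∧ ∀ t : ℝ, 0 ≤ t →
    t ^ p ≤ C * Real.cosh t := by
  obtain ⟨k, hk⟩ := exists_nat_ge p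
  refine ⟨1 + ((2 * k).factorial : ℝ), ?_, ?_⟩
  · have : (0 : ℝ) ≤ ((2 * k).factorial : ℝ) := by positivity
    linarith
  intro t ht
  have h1 : 1 ≤ Real.cosh t := Real.one_le_cosh t
  have h2 : t ^ (2 * k) ≤ ((2 * k).factorial : ℝ) * Real.cosh t := by
    have h3 := Real.hasSum_cosh t
    have h4 : t ^ (2 * k) / ((2 * k).factorial : ℝ) ≤ Real.cosh t := by
      refine le_hasSum h3 k ?_
      intro j _
      positivity
    rw [div_le_iff₀ (by positivity)] at h4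
    linarith
  have hk2 : p ≤ ((2 * k : ℕ) : ℝ) := by
    push_cast
    have : (0 : ℝ) ≤ k := Nat.cast_nonneg k
    linarith
  rcases le_total t 1 with h | h
  · have : t ^ p ≤ 1 := Real.rpow_le_one ht h (by linarith)
    have h5 : (0 : ℝ) ≤ ((2 * k).factorial : ℝ) * Real.cosh t := by positivity
    nlinarith
  · have : t ^ p ≤ t ^ ((2 * k : ℕ) : ℝ) := Real.rpow_le_rpow_of_exponent_le h hk2
    rw [Real.rpow_natCast] at this
    nlinarith

lemma upper (p : ℝ) (hp : 2 ≤ p) : ∃ B : ℝ, 1 ≤ B ∧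
    ∀ (E : Type) [NormedAddCommGroup E] [InnerProductSpace ℂ E] (ι : Type) [Fintype ι]
      [DecidableEq ι] (c : ι → E),
      signAvg (fun ε => ‖∑ i, sgn (ε i) • c i‖ ^ p) ≤ B ^ p * (∑ i, ‖c i‖ ^ 2) ^ (p / 2) := by
  obtain ⟨C, hC1, hC⟩ := rpow_le_cosh p hp
  have hp0 : 0 < p := by linarith
  set D : ℝ := C * Real.exp 1 with hD
  have hD1 : 1 ≤ D := by
    have : 1 ≤ Real.exp 1 := Real.one_le_exp zero_le_one
    nlinarith
  refine ⟨D ^ (1 / p), Real.one_le_rpow hD1 (by positivity), ?_⟩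
  intro E _ _ ι _ _ c
  rw [← Real.rpow_mul (by linarith), one_div_mul_cancel hp0.ne', Real.rpow_one]
  set s : ℝ := ∑ i, ‖c i‖ ^ 2 with hs
  have hs0 : 0 ≤ s := Finset.sum_nonneg fun i _ => by positivity
  rcases hs0.eq_or_lt with h0 | h0
  · have hc : ∀ i, c i = 0 := by
      intro i
      have := (Finset.sum_eq_zero_iff_of_nonneg (fun i _ => by positivity)).1 h0.symm i
        (Finset.mem_univ i)
      exact norm_eq_zero.1 (pow_eq_zero_iff (two_ne_zero) |>.1 this)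
    have : (fun ε : ι → Bool => ‖∑ i, sgn (ε i) • c i‖ ^ p) = fun _ => 0 := by
      funext ε
      simp [hc, Real.zero_rpow hp0.ne']
    rw [this]
    have e : signAvg (fun _ : ι → Bool => (0 : ℝ)) = 0 := by simp [signAvg]
    rw [e]
    positivity
  · set lam : ℝ := (Real.sqrt s)⁻¹ with hlam
    have hsq : 0 < Real.sqrt s := Real.sqrt_pos.2 h0
    have hlam0 : 0 < lam := inv_pos.2 hsq
    have h1 : ∀ ε : ι → Bool, ‖∑ i, sgn (ε i) • c i‖ ^ p ≤
        (s ^ (p / 2) * C) * Real.cosh ‖∑ i, sgn (ε i) • ((lam : ℂ) • c i)‖ := by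
      intro ε
      have e1 : ∑ i, sgn (ε i) • ((lam : ℂ) • c i) = (lam : ℂ) • ∑ i, sgn (ε i) • c i := by
        rw [Finset.smul_sum]
        refine Finset.sum_congr rfl fun i _ => ?_
        rw [smul_comm]
      have e2 : ‖∑ i, sgn (ε i) • ((lam : ℂ) • c i)‖ = lam * ‖∑ i, sgn (ε i) • c i‖ := by
        rw [e1, norm_smul, Complex.norm_real, Real.norm_of_nonneg hlam0.le]
      have e3 := hC (lam * ‖∑ i, sgn (ε i) • c i‖) (by positivity)
      rw [Real.mul_rpow hlam0.le (norm_nonneg _)] at e3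
      have e4 : lam ^ p * s ^ (p / 2) = 1 := by
        rw [hlam, Real.sqrt_eq_rpow, Real.inv_rpow (by positivity), ← Real.rpow_mul hs0]
        rw [show (1 / 2 : ℝ) * p = p / 2 by ring]
        exact inv_mul_cancel₀ (by positivity)
      rw [e2]
      calc ‖∑ i, sgn (ε i) • c i‖ ^ p
          = s ^ (p / 2) * (lam ^ p * ‖∑ i, sgn (ε i) • c i‖ ^ p) := by
            rw [← mul_assoc, mul_comm (s ^ (p / 2)), e4, one_mul]
        _ ≤ s ^ (p / 2) * (C * Real.cosh (lam * ‖∑ i, sgn (ε i) • c i‖)) :=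
            mul_le_mul_of_nonneg_left e3 (by positivity)
        _ = _ := by ring
    refine (signAvg_mono h1).trans ?_
    rw [signAvg_mul]
    have h2 := signAvg_cosh (fun i => (lam : ℂ) • c i)
    have h3 : ∏ i, Real.cosh ‖(lam : ℂ) • c i‖ ≤ Real.exp 1 := by
      calc ∏ i, Real.cosh ‖(lam : ℂ) • c i‖
          ≤ ∏ i, Real.exp (‖(lam : ℂ) • c i‖ ^ 2 / 2) :=
            Finset.prod_le_prod (fun i _ => (Real.cosh_pos _).le)
              (fun i _ => Real.cosh_le_exp_half_sq _)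
        _ = Real.exp (∑ i, ‖(lam : ℂ) • c i‖ ^ 2 / 2) := (Real.exp_sum _ _).symm
        _ ≤ Real.exp 1 := by
            apply Real.exp_le_exp.2
            have : ∑ i, ‖(lam : ℂ) • c i‖ ^ 2 / 2 = lam ^ 2 * s / 2 := by
              rw [hs, Finset.mul_sum, Finset.sum_div]
              refine Finset.sum_congr rfl fun i _ => ?_
              rw [norm_smul, Complex.norm_real, Real.norm_of_nonneg hlam0.le, mul_pow]
            rw [this, hlam, inv_pow, Real.sq_sqrt hs0, inv_mul_cancel₀ h0.ne']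
            norm_num
    calc s ^ (p / 2) * C * signAvg (fun ε => Real.cosh ‖∑ i, sgn (ε i) • ((lam : ℂ) • c i)‖)
        ≤ s ^ (p / 2) * C * Real.exp 1 :=
          mul_le_mul_of_nonneg_left (h2.trans h3) (by positivity)
      _ = _ := by rw [hD]; ring

end

theorem kh : KhStmt := by
  refine ⟨?_, ?_⟩
  · intro p hp
    obtain ⟨B, hB1, hB⟩ := upper p hp
    refine ⟨B, hB1, ?_⟩
    intro E _ _ ι _ _ c
    refine ⟨hB E ι c, ?_⟩
    rw [← signAvg_sq c]
    refine (signAvg_jensen _ (fun ε => by positivity) (p / 2) (by linarith)).trans (le_of_eq ?_)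
    congr 1
    funext ε
    rw [← Real.rpow_natCast, ← Real.rpow_mul (norm_nonneg _)]
    congr 1
    push_cast
    ring
  · intro q hq1 hq2 E _ _ ι _ _ c
    rw [← signAvg_sq c]
    have hq0 : 0 < q := by linarith
    have h := signAvg_jensen (fun ε : ι → Bool => ‖∑ i, sgn (ε i) • c i‖ ^ q)
      (fun ε => by positivity) (2 / q) (by rw [le_div_iff₀ hq0]; linarith)
    have e : (fun ε : ι → Bool => (‖∑ i, sgn (ε i) • c i‖ ^ q) ^ (2 / q)) =
        fun ε => ‖∑ i, sgn (ε i) • c i‖ ^ 2 := by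
      funext ε
      rw [← Real.rpow_mul (norm_nonneg _), mul_div_cancel₀ _ hq0.ne']
      exact Real.rpow_two _
    rw [e] at h
    have hnn : 0 ≤ signAvg (fun ε : ι → Bool => ‖∑ i, sgn (ε i) • c i‖ ^ q) := by
      unfold signAvg
      apply div_nonneg (Finset.sum_nonneg fun ε _ => by positivity) (by positivity)
    have h2 := Real.rpow_le_rpow (by positivity) h (by positivity : 0 ≤ q / 2)
    rw [← Real.rpow_mul hnn] at h2
    rw [show 2 / q * (q / 2) = 1 by field_simp, Real.rpow_one] at h2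
    exact h2

end Pool.Agent.H32.BDFP
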