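import Pool.Agent.H33.BDFP.Stmts

attribute [local instance] Pool.Agent.H33.BDFP.NV.instNACG Pool.Agent.H33.BDFP.NV.instModule
  Pool.Agent.H33.BDFP.NV.instNormedSpace Pool.Agent.H33.BDFP.NV.instFD
  Pool.Agent.H33.BDFP.NV.instComplete

/-!
Module PART: fine partitions of unity with squares.
-/

open scoped ENNReal NNReal

noncomputable section

namespace Pool.Agent.H32.BDFP

open Pool.Agent.H33.BDFP

/-- the hat function -/
def hat (x : ℝ) : ℝ := Real.cos (Real.pi / 2 * min |x| 1)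

lemma hat_cont : Continuous hat := by
  unfold hat
  fun_prop

lemma hat_zero {x : ℝ} (h : 1 ≤ |x|) : hat x = 0 := by
  unfold hat
  rw [min_eq_right h, mul_one, Real.cos_pi_div_two]

lemma hat_nonneg (x : ℝ) : 0 ≤ hat x := by
  unfold hat
  have h1 : 0 ≤ min |x| 1 := le_min (abs_nonneg _) zero_le_one
  have h2 : min |x| 1 ≤ 1 := min_le_right _ _
  have hp := Real.pi_pos
  apply Real.cos_nonneg_of_neg_pi_div_two_le_of_le
  · nlinarith
  · nlinarith

lemma hat_le_one (x : ℝ) : hat x ≤ 1 := Real.cos_le_one _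

lemma hat_left {x : ℝ} (h0 : 0 ≤ x) (h1 : x ≤ 1) : hat x = Real.cos (Real.pi / 2 * x) := by
  unfold hat
  rw [abs_of_nonneg h0, min_eq_left h1]

lemma hat_right {x : ℝ} (h0 : 0 ≤ x) (h1 : x ≤ 1) : hat (x - 1) = Real.sin (Real.pi / 2 * x) := by
  unfold hat
  rw [abs_of_nonpos (by linarith), min_eq_left (by linarith)]
  rw [show Real.pi / 2 * -(x - 1) = Real.pi / 2 - Real.pi / 2 * x by ring]
  exact Real.cos_pi_div_two_sub _

lemma sum_hat (f : ℝ → ℝ) (hf : f 0 = 0) (R : ℤ) (x : ℝ) (hx : |x| + 1 ≤ R) :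
    ∑ l ∈ Finset.Icc (-R) R, f (hat (x - l)) =
      f (Real.cos (Real.pi / 2 * Int.fract x)) + f (Real.sin (Real.pi / 2 * Int.fract x)) := by
  set l0 : ℤ := ⌊x⌋ with hl0
  have h1 : (l0 : ℝ) ≤ x := Int.floor_le x
  have h2 : x < l0 + 1 := Int.lt_floor_add_one x
  obtain ⟨h3, h4⟩ := abs_le.1 (le_refl |x|)
  have h5 : -R ≤ l0 := by
    have : (-R : ℝ) ≤ l0 := by linarith
    exact_mod_cast this
  have h6 : l0 + 1 ≤ R := by
    have : (l0 : ℝ) + 1 ≤ R := by linarith
    exact_mod_cast this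
  have hsub : ({l0, l0 + 1} : Finset ℤ) ⊆ Finset.Icc (-R) R := by
    intro l hl
    rw [Finset.mem_insert, Finset.mem_singleton] at hl
    rw [Finset.mem_Icc]
    omega
  rw [← Finset.sum_subset hsub]
  · rw [Finset.sum_pair (by omega)]
    have e1 : x - l0 = Int.fract x := rfl
    have e2 : x - ((l0 + 1 : ℤ) : ℝ) = Int.fract x - 1 := by
      push_cast
      rw [← e1]
      ring
    rw [e1, e2, hat_left (Int.fract_nonneg x) (Int.fract_lt_one x).le,
      hat_right (Int.fract_nonneg x) (Int.fract_lt_one x).le]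
  · intro l _ hl
    rw [Finset.mem_insert, Finset.mem_singleton, not_or] at hl
    rw [hat_zero, hf]
    rcases lt_or_gt_of_ne hl.1 with h | h
    · have h7 : (l : ℝ) + 1 ≤ l0 := by exact_mod_cast h
      rw [abs_of_nonneg (by linarith)]
      linarith
    · have h7 : l0 + 2 ≤ l := by omega
      have h8 : (l0 : ℝ) + 2 ≤ l := by exact_mod_cast h7
      rw [abs_of_nonpos (by linarith)]
      linarith

lemma sum_hat_sq (R : ℤ) (x : ℝ) (hx : |x| + 1 ≤ R) :
    ∑ l ∈ Finset.Icc (-R) R, hat (x - l) ^ 2 = 1 := by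
  rw [sum_hat (fun t => t ^ 2) (by simp) R x hx]
  exact Real.cos_sq_add_sin_sq _

lemma sum_hat_le (R : ℤ) (x : ℝ) (hx : |x| + 1 ≤ R) :
    ∑ l ∈ Finset.Icc (-R) R, hat (x - l) ≤ Real.sqrt 2 := by
  rw [sum_hat (fun t => t) rfl R x hx]
  apply Real.le_sqrt_of_sq_le
  have h := Real.cos_sq_add_sin_sq (Real.pi / 2 * Int.fract x)
  nlinarith [sq_nonneg (Real.cos (Real.pi / 2 * Int.fract x) -
    Real.sin (Real.pi / 2 * Int.fract x))]

theorem part : PartStmt := by
  intro M _ ε hε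
  classical
  set d : ℝ := ε / 4 with hd
  have hd0 : 0 < d := by positivity
  obtain ⟨B, hB⟩ : ∃ B : ℝ, ∀ z : M, ‖(z : ℂ)‖ ≤ B := by
    have h : IsCompact (Set.range (fun z : M => (z : ℂ))) := isCompact_range continuous_subtype_val
    obtain ⟨B, hB⟩ := h.isBounded.exists_norm_le
    exact ⟨B, fun z => hB _ ⟨z, rfl⟩⟩
  obtain ⟨R0, hR0⟩ := exists_nat_ge (B / d + 1)
  set R : ℤ := (R0 : ℤ) with hR
  have hre : ∀ z : M, |(z : ℂ).re / d| + 1 ≤ R := by
    intro z
    rw [abs_div, abs_of_pos hd0]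
    have h1 : |(z : ℂ).re| / d ≤ B / d :=
      div_le_div_of_nonneg_right ((Complex.abs_re_le_norm _).trans (hB z)) hd0.le
    have h2 : ((R : ℤ) : ℝ) = (R0 : ℝ) := by rw [hR]; exact Int.cast_natCast R0
    rw [h2]
    linarith
  have him : ∀ z : M, |(z : ℂ).im / d| + 1 ≤ R := by
    intro z
    rw [abs_div, abs_of_pos hd0]
    have h1 : |(z : ℂ).im| / d ≤ B / d :=
      div_le_div_of_nonneg_right ((Complex.abs_im_le_norm _).trans (hB z)) hd0.le
    have h2 : ((R : ℤ) : ℝ) = (R0 : ℝ) := by rw [hR]; exact Int.cast_natCast R0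
    rw [h2]
    linarith
  set G : ℤ × ℤ → M → ℝ := fun q z =>
    hat ((z : ℂ).re / d - q.1) * hat ((z : ℂ).im / d - q.2) with hG
  have hGc : ∀ q, Continuous (G q) := by
    intro q
    have h1 : Continuous (fun z : M => (z : ℂ).re / d - q.1) := by fun_prop
    have h2 : Continuous (fun z : M => (z : ℂ).im / d - q.2) := by fun_prop
    exact (hat_cont.comp h1).mul (hat_cont.comp h2)
  have hG0 : ∀ q z, 0 ≤ G q z := fun q z => mul_nonneg (hat_nonneg _) (hat_nonneg _)
  have hG1 : ∀ q z, G q z ≤ 1 := fun q z =>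
    mul_le_one₀ (hat_le_one _) (hat_nonneg _) (hat_le_one _)
  set P : Finset (ℤ × ℤ) := Finset.Icc (-R) R ×ˢ Finset.Icc (-R) R with hP
  set T : Finset (ℤ × ℤ) := P.filter (fun q => ∃ z, G q z ≠ 0) with hT
  have hTsum : ∀ (f : ℝ → ℝ), f 0 = 0 → ∀ z, ∑ q ∈ T, f (G q z) = ∑ q ∈ P, f (G q z) := by
    intro f hf z
    apply Finset.sum_subset (Finset.filter_subset _ _)
    intro q hq hq2
    rw [Finset.mem_filter, not_and] at hq2
    have h := hq2 hq
    push Not at h
    rw [h z, hf]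
  have hch : ∀ q : T, ∃ z : M, G q z ≠ 0 := fun q => (Finset.mem_filter.1 q.2).2
  choose w hw using hch
  have hsum1 : ∀ z, ∑ q ∈ P, G q z = (∑ l ∈ Finset.Icc (-R) R, hat ((z : ℂ).re / d - l)) *
      ∑ l ∈ Finset.Icc (-R) R, hat ((z : ℂ).im / d - l) := by
    intro z
    rw [hP, Finset.sum_product, Finset.sum_mul_sum]
  have hsum2 : ∀ z, ∑ q ∈ P, G q z ^ 2 =
      (∑ l ∈ Finset.Icc (-R) R, hat ((z : ℂ).re / d - l) ^ 2) *
      ∑ l ∈ Finset.Icc (-R) R, hat ((z : ℂ).im / d - l) ^ 2 := by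
    intro z
    rw [hP, Finset.sum_product, Finset.sum_mul_sum]
    simp only [hG, mul_pow]
  let eT := T.equivFin
  have hre' : ∀ (f : T → ℝ), ∑ i : Fin T.card, f (eT.symm i) = ∑ q : T, f q := fun f =>
    Fintype.sum_equiv eT.symm _ _ (fun _ => rfl)
  refine ⟨T.card, fun i => ⟨fun z => ((G (eT.symm i) z : ℝ) : ℂ),
    Complex.continuous_ofReal.comp (hGc _)⟩, fun i => w (eT.symm i), ?_, ?_, ?_, ?_⟩
  · ext z
    rw [ContinuousMap.sum_apply]
    simp only [ContinuousMap.mul_apply, ContinuousMap.coe_mk, ContinuousMap.one_apply]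
    have h1 : ∑ i : Fin T.card, (G (eT.symm i) z) ^ 2 = 1 := by
      rw [hre' (fun q => G q z ^ 2), Finset.sum_coe_sort T (fun q => G q z ^ 2),
        hTsum (fun t => t ^ 2) (by simp) z, hsum2, sum_hat_sq R _ (hre z),
        sum_hat_sq R _ (him z), mul_one]
    have h2 : ((∑ i : Fin T.card, (G (eT.symm i) z) ^ 2 : ℝ) : ℂ) = 1 := by rw [h1]; simp
    rw [← h2]
    push_cast
    refine Finset.sum_congr rfl fun i _ => ?_
    ring
  · intro z
    have h0 : ∀ i : Fin T.card, ‖((G (eT.symm i) z : ℝ) : ℂ)‖ = G (eT.symm i) z := by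
      intro i
      rw [Complex.norm_real, Real.norm_of_nonneg (hG0 _ _)]
    simp only [ContinuousMap.coe_mk, h0]
    rw [hre' (fun q => G q z), Finset.sum_coe_sort T (fun q => G q z),
      hTsum (fun t => t) rfl z, hsum1]
    have h1 := sum_hat_le R _ (hre z)
    have h2 := sum_hat_le R _ (him z)
    have h3 : 0 ≤ ∑ l ∈ Finset.Icc (-R) R, hat ((z : ℂ).im / d - l) :=
      Finset.sum_nonneg fun l _ => hat_nonneg _
    calc _ ≤ Real.sqrt 2 * Real.sqrt 2 := mul_le_mul h1 h2 h3 (Real.sqrt_nonneg 2)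
      _ = 2 := Real.mul_self_sqrt (by norm_num)
  · intro z i
    change ‖((G (eT.symm i) z : ℝ) : ℂ)‖ ≤ 1
    rw [Complex.norm_real, Real.norm_of_nonneg (hG0 _ _)]
    exact hG1 _ _
  · intro z i hi
    have hi' : G (eT.symm i) z ≠ 0 := by
      intro h
      apply hi
      change ((G (eT.symm i) z : ℝ) : ℂ) = 0
      rw [h, Complex.ofReal_zero]
    have hw' := hw (eT.symm i)
    set q := eT.symm i
    have key : ∀ (a b : ℝ) (l : ℤ), hat (a / d - l) ≠ 0 → hat (b / d - l) ≠ 0 →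
        |a - b| ≤ 2 * d := by
      intro a b l ha hb
      have h1 : |a / d - l| < 1 := by
        by_contra h
        exact ha (hat_zero (not_lt.1 h))
      have h2 : |b / d - l| < 1 := by
        by_contra h
        exact hb (hat_zero (not_lt.1 h))
      have h3 : |a / d - b / d| ≤ 2 := by
        have : a / d - b / d = (a / d - l) - (b / d - l) := by ring
        rw [this]
        exact (abs_sub _ _).trans (by linarith)
      rw [← sub_div, abs_div, abs_of_pos hd0, div_le_iff₀ hd0] at h3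
      exact h3
    have h1 := key _ _ q.1.1 (left_ne_zero_of_mul hi') (left_ne_zero_of_mul hw')
    have h2 := key _ _ q.1.2 (right_ne_zero_of_mul hi') (right_ne_zero_of_mul hw')
    rw [Subtype.dist_eq, Complex.dist_eq]
    refine (Complex.norm_le_abs_re_add_abs_im _).trans ?_
    rw [Complex.sub_re, Complex.sub_im]
    calc _ ≤ 2 * d + 2 * d := add_le_add h1 h2
      _ = ε := by rw [hd]; ring

end Pool.Agent.H32.BDFP
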